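import Pool.Agent.helper26.FJ3.Quo

set_option autoImplicit false

/-!
# Module A5b: a good leaf
-/

namespace Pool.Agent.helper20.FJ3

open Pool.Agent.helper34.FJ2 Pool.Agent.helper34.FJ3
open scoped BigOperators

variable {N V K : Type} [Group N] [MulAction N V]

/-- the (U)-trick -/
lemma utrick {X : Complex2 V} {len : V → V → ℝ} {τ : V → K} (hτ : Typed X τ)
    (ha : Acts N X len τ) {a b : V} {h : N} (h1 : X.edge a b) (h2 : X.edge a (h • b)) :
    h • b = b ∨ h • a = a := by
  rcases hτ.uniq a b h1 with h3 | h3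
  · exact Or.inl (h3 _ h2 (ha.typ h b))
  · right
    have h4 : X.edge b (h⁻¹ • a) := by
      have h5 := X.edge_symm _ _ (ha.edge h⁻¹ _ _ h2)
      rwa [inv_smul_smul] at h5
    have h5 := h3 _ h4 (ha.typ _ a)
    rw [inv_smul_eq_iff] at h5
    exact h5.symm

lemma qmk_eq {v w : V} : qmk N v = qmk N w ↔ ∃ g : N, g • v = w := by
  unfold qmk
  rw [Quotient.eq]
  constructor
  · rintro ⟨g, hg⟩
    refine ⟨g⁻¹, ?_⟩
    have hg' : g • w = v := hg
    rw [← hg', inv_smul_smul]
  · rintro ⟨g, hg⟩
    refine ⟨g⁻¹, ?_⟩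
    change g⁻¹ • w = v
    rw [← hg, inv_smul_smul]

lemma qmk_smul (g : N) (v : V) : qmk N (g • v) = qmk N v :=
  (qmk_eq.2 ⟨g, rfl⟩ : qmk N v = qmk N (g • v)).symm

lemma quoLen_eq' {X : Complex2 V} {len : V → V → ℝ} {τ : V → K} (hτ : Typed X τ)
    (ha : Acts N X len τ) (a b : V) (h : X.edge a b) :
    quoLen N X len (qmk N a) (qmk N b) = len a b := by
  have hex : ∃ r, ∃ a' b', X.edge a' b' ∧ qmk N a' = qmk N a ∧ qmk N b' = qmk N b ∧
      len a' b' = r := ⟨_, a, b, h, rfl, rfl, rfl⟩
  have e : quoLen N X len (qmk N a) (qmk N b) = hex.choose := dif_pos hex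
  rw [e]
  obtain ⟨a', b', h1, h2, h3, h4⟩ := hex.choose_spec
  rw [← h4]
  obtain ⟨g, rfl⟩ := qmk_eq.1 h2
  have h5 : qmk N b = qmk N (g • b') := by rw [qmk_smul, h3]
  obtain ⟨k, hk⟩ := qmk_eq.1 h5
  rw [← ha.len g a' b' h1, ← hk]
  have h6 : X.edge (g • a') (k • b) := by
    rw [hk]
    exact ha.edge _ _ _ h1
  rcases utrick hτ ha h h6 with h7 | h7
  · rw [h7]
  · have h8 := ha.len k _ _ h
    rw [h7] at h8
    exact h8

lemma lift_step {X : Complex2 V} {len : V → V → ℝ} {τ : V → K} (hτ : Typed X τ)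
    (ha : Acts N X len τ) {a b : V} {z : Quo N V} (h : X.edge a b)
    (ht : (quo N X).tri (qmk N a) (qmk N b) z) : ∃ d, X.tri a b d ∧ qmk N d = z := by
  obtain ⟨-, a', b', c', h1, h2, h3, h4⟩ := ht
  obtain ⟨g, rfl⟩ := qmk_eq.1 h2
  have h5 : qmk N b = qmk N (g • b') := by rw [qmk_smul, h3]
  obtain ⟨k, hk⟩ := qmk_eq.1 h5
  have h6 := ha.tri g _ _ _ h1
  have h7 := X.tri_edge _ _ _ h6
  rw [← hk] at h6 h7
  rcases utrick hτ ha h h7 with h8 | h8
  · rw [h8] at h6
    exact ⟨g • c', h6, by rw [qmk_smul, h4]⟩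
  · have h9 := ha.tri k⁻¹ _ _ _ h6
    rw [inv_smul_smul, inv_smul_eq_iff.2 h8.symm] at h9
    exact ⟨k⁻¹ • g • c', h9, by rw [qmk_smul, qmk_smul, h4]⟩

lemma corner_symm {W : Type} {len : W → W → ℝ} (hs : ∀ a b, len a b = len b a) (a b c : W) :
    corner len a b c = corner len a c b := by
  unfold corner
  rw [hs c b]
  congr 1
  ring_nf

lemma tedge {W : Type} {X : Complex2 W} {a b c : W} (h : X.tri a b c) : X.edge a c :=
  X.edge_symm _ _ (X.tri_edge _ _ _ (X.tri_rot _ _ _ (X.tri_rot _ _ _ h)))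

lemma tswap {W : Type} {X : Complex2 W} {a b c : W} (h : X.tri a b c) : X.tri a c b :=
  X.tri_rot _ _ _ (X.tri_swap _ _ _ h)

/-- an end of a maximal simple path is a leaf -/
lemma leaf_end {Q : Type} {Y : Complex2 Q} {len : Q → Q → ℝ} (hn : NPC Y len)
    (T : Q → Q → Q → Prop) (hT : ∀ a b c, T a b c → Y.tri a b c)
    (hT1 : ∀ a b c, T a b c → T b c a) (hT2 : ∀ a b c, T a b c → T b a c) (p : Q)
    (hp : ∀ (n : ℕ) (c : ℕ → Q),
      (∀ i j, i ≤ n → j ≤ n → c i = c j → i = j) → (∀ i, i < n → T p (c i) (c (i + 1))) →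
      ∑ i ∈ Finset.range n, corner len p (c i) (c (i + 1)) < Real.pi)
    (n : ℕ) (c : ℕ → Q) (h1 : ∀ i j, i ≤ n → j ≤ n → c i = c j → i = j)
    (h2 : ∀ i, i < n → T p (c i) (c (i + 1)))
    (hmax : ∀ (m : ℕ) (d : ℕ → Q), (∀ i j, i ≤ m → j ≤ m → d i = d j → i = j) →
      (∀ i, i < m → T p (d i) (d (i + 1))) → m ≤ n)
    (z : Q) (hz : T p (c 0) z) : z = c 1 := by
  have hT3 : ∀ a b c, T a b c → T a c b := fun a b c h => hT1 _ _ _ (hT2 _ _ _ h)
  by_cases hex : ∃ j, j ≤ n ∧ z = c j
  · obtain ⟨j, hj, rfl⟩ := hex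
    rcases Nat.lt_or_ge j 2 with hj2 | hj2
    · interval_cases j
      · exact absurd ((Y.tri_edge _ _ _ (Y.tri_rot _ _ _ (hT _ _ _ hz)))) (Y.edge_irrefl _)
      · rfl
    · exfalso
      -- closed path of length `j + 1`
      set b : ℕ → Q := fun i => if i ≤ j then c i else c 0 with hb
      have b1 : ∀ i, i ≤ j → b i = c i := fun i hi => by simp [hb, hi]
      have b2 : b (j + 1) = c 0 := by simp [hb]
      have k1 := hn.link p (j + 1) b (by omega) (by rw [b2, b1 0 (by omega)]) ?_ ?_
      · rw [Finset.sum_range_succ, b2, b1 j le_rfl] at k1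
        have k2 := hp j c (fun i i' hi hi' h => h1 i i' (by omega) (by omega) h)
          (fun i hi => h2 i (by omega))
        have k3 : corner len p (c j) (c 0) ≤ Real.pi := Real.arccos_le_pi _
        have k4 : ∑ i ∈ Finset.range j, corner len p (b i) (b (i + 1)) =
            ∑ i ∈ Finset.range j, corner len p (c i) (c (i + 1)) := by
          refine Finset.sum_congr rfl (fun i hi => ?_)
          rw [Finset.mem_range] at hi
          rw [b1 i (by omega), b1 (i + 1) (by omega)]
        rw [k4] at k1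
        linarith
      · intro i i' hi hi' h
        rw [b1 i (by omega), b1 i' (by omega)] at h
        exact h1 i i' (by omega) (by omega) h
      · intro i hi
        rcases Nat.lt_or_ge i j with h | h
        · rw [b1 i (by omega), b1 (i + 1) (by omega)]
          exact hT _ _ _ (h2 i (by omega))
        · have hij : i = j := by omega
          subst hij
          rw [b1 i le_rfl, b2]
          exact hT _ _ _ (hT3 _ _ _ hz)
  · exfalso
    push Not at hex
    set d : ℕ → Q := fun i => if i = 0 then z else c (i - 1) with hd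
    have d0 : d 0 = z := by simp [hd]
    have d1 : ∀ i, d (i + 1) = c i := fun i => by simp [hd]
    have := hmax (n + 1) d ?_ ?_
    · omega
    · intro i j hi hj h
      cases i with
      | zero =>
        cases j with
        | zero => rfl
        | succ j =>
          rw [d0, d1] at h
          exact absurd h (hex j (by omega))
      | succ i =>
        cases j with
        | zero =>
          rw [d0, d1] at h
          exact absurd h.symm (hex i (by omega))
        | succ j =>
          rw [d1, d1] at h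
          rw [h1 i j (by omega) (by omega) h]
    · intro i hi
      cases i with
      | zero =>
        rw [d0, d1]
        exact hT3 _ _ _ hz
      | succ i =>
        rw [d1, d1]
        exact h2 i (by omega)

theorem good_leaf_aux (X : Complex2 V) (len : V → V → ℝ)
    (τ : V → K) (hn : NPC X len) (hτ : Typed X τ) (ha : Acts N X len τ) (hr : Rot N X len)
    (hq : NPC (quo N X) (quoLen N X len))
    (hg : Geo (quo N X) (quoLen N X len)) (T : Quo N V → Quo N V → Quo N V → Prop)
    (hT : ∀ a b c, T a b c → (quo N X).tri a b c) (hT1 : ∀ a b c, T a b c → T b c a)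
    (hT2 : ∀ a b c, T a b c → T b a c) (hT3 : {a | ∃ b c, T a b c}.Finite)
    (hT4 : ∃ a b c, T a b c) :
    ∃ a b c : V, X.tri a b c ∧ T (qmk N a) (qmk N b) (qmk N c) ∧
      (∀ z, T (qmk N a) (qmk N b) z → z = qmk N c) ∧
      ∀ g : N, g • a = a → g • b = b → g • c = c := by
  classical
  obtain ⟨p, ⟨b0, c0, hbc⟩, hp⟩ := hg T hT hT1 hT2 hT3 hT4
  have hT5 : ∀ a b c, T a b c → T a c b := fun a b c h => hT1 _ _ _ (hT2 _ _ _ h)
  -- a maximal simple path
  let PP : ℕ → (ℕ → Quo N V) → Prop := fun n c =>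
    (∀ i j, i ≤ n → j ≤ n → c i = c j → i = j) ∧ (∀ i, i < n → T p (c i) (c (i + 1)))
  have hbdd : ∀ n c, PP n c → n ≤ hT3.toFinset.card + 1 := by
    intro n c hc
    by_contra hlt
    push Not at hlt
    have h1 : Finset.card ((Finset.range n).image c) ≤ hT3.toFinset.card := by
      refine Finset.card_le_card ?_
      intro q hq
      rw [Finset.mem_image] at hq
      obtain ⟨i, hi, rfl⟩ := hq
      rw [Finset.mem_range] at hi
      rw [Set.Finite.mem_toFinset]
      exact ⟨_, _, hT1 _ _ _ (hc.2 i hi)⟩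
    rw [Finset.card_image_of_injOn, Finset.card_range] at h1
    · omega
    · intro i hi j hj h
      simp only [Finset.coe_range, Set.mem_Iio] at hi hj
      exact hc.1 i j (by omega) (by omega) h
  have hex1 : ∃ c, PP 1 c := by
    refine ⟨fun i => if i = 0 then b0 else c0, ?_, ?_⟩
    · have hne : b0 ≠ c0 := (hT _ _ _ hbc).1.2.1
      intro i j hi hj h
      interval_cases i <;> interval_cases j
      · rfl
      · simp at h
        exact absurd h hne
      · simp at h
        exact absurd h.symm hne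
      · rfl
    · intro i hi
      have : i = 0 := by omega
      subst this
      simpa using hbc
  have hmem : sSup {n | ∃ c, PP n c} ∈ {n | ∃ c, PP n c} :=
    Nat.sSup_mem ⟨1, hex1⟩ ⟨_, fun n hn => hbdd n _ hn.choose_spec⟩
  have hle : ∀ m, (∃ c, PP m c) → m ≤ sSup {n | ∃ c, PP n c} := fun m hm =>
    le_csSup ⟨_, fun n hn => hbdd n _ hn.choose_spec⟩ hm
  set n := sSup {n | ∃ c, PP n c} with hndef
  obtain ⟨c, hc1, hc2⟩ := hmem
  have hn1 : 1 ≤ n := hle 1 hex1
  have hmax : ∀ (m : ℕ) (d : ℕ → Quo N V), (∀ i j, i ≤ m → j ≤ m → d i = d j → i = j) →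
      (∀ i, i < m → T p (d i) (d (i + 1))) → m ≤ n := fun m d h1 h2 => hle m ⟨d, h1, h2⟩
  have leaf0 := leaf_end hq T hT hT1 hT2 p hp n c hc1 hc2 hmax
  have leafn : ∀ z, T p (c n) z → z = c (n - 1) := by
    have h := leaf_end hq T hT hT1 hT2 p hp n (fun i => c (n - i)) ?_ ?_ hmax
    · intro z hz
      exact h z (by simpa using hz)
    · intro i j hi hj h
      have := hc1 _ _ (by omega) (by omega) h
      omega
    · intro i hi
      have e : n - i = (n - (i + 1)) + 1 := by omega
      change T p (c (n - i)) (c (n - (i + 1)))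
      rw [e]
      exact hT5 _ _ _ (hc2 _ (by omega))
  -- the lift
  obtain ⟨a, rfl⟩ : ∃ a, qmk N a = p := by
    obtain ⟨a, ha⟩ := Quotient.exists_rep p
    exact ⟨a, ha⟩
  obtain ⟨f0, hf0, hf0'⟩ : ∃ f0, X.edge a f0 ∧ qmk N f0 = c 0 := by
    obtain ⟨-, a', b', c', h1, h2, h3, h4⟩ := hT _ _ _ (hc2 0 (by omega))
    obtain ⟨g, hg⟩ := qmk_eq.1 h2
    refine ⟨g • b', ?_, by rw [qmk_smul, h3]⟩
    have := ha.edge g _ _ (X.tri_edge _ _ _ h1)
    rwa [hg] at this
  obtain ⟨f, hf⟩ : ∃ f : ℕ → V, ∀ i, i ≤ n → X.edge a (f i) ∧ qmk N (f i) = c i ∧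
      (i < n → X.tri a (f i) (f (i + 1))) := by
    let f : ℕ → V := fun i => Nat.rec f0 (fun i v =>
      if h : ∃ d, X.tri a v d ∧ qmk N d = c (i + 1) then h.choose else v) i
    have fzero : f 0 = f0 := rfl
    have fsucc : ∀ i, f (i + 1) =
        if h : ∃ d, X.tri a (f i) d ∧ qmk N d = c (i + 1) then h.choose else f i := fun i => rfl
    have step : ∀ i, i < n → X.edge a (f i) → qmk N (f i) = c i →
        X.tri a (f i) (f (i + 1)) ∧ qmk N (f (i + 1)) = c (i + 1) := by
      intro i hi h1 h2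
      have h3 : ∃ d, X.tri a (f i) d ∧ qmk N d = c (i + 1) := by
        refine lift_step hτ ha h1 ?_
        rw [h2]
        exact hT _ _ _ (hc2 i hi)
      have e : f (i + 1) = h3.choose := by
        rw [fsucc]
        exact dif_pos h3
      rw [e]
      exact h3.choose_spec
    refine ⟨f, fun i => ?_⟩
    induction i with
    | zero =>
      intro _
      exact ⟨hf0, hf0', fun hi => (step 0 hi hf0 hf0').1⟩
    | succ i ih =>
      intro hi
      obtain ⟨h1, h2, h3⟩ := ih (by omega)
      obtain ⟨h4, h5⟩ := step i (by omega) h1 h2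
      have h6 := tedge h4
      exact ⟨h6, h5, fun hi' => (step (i + 1) hi' h6 h5).1⟩
  have hfe : ∀ i, i ≤ n → X.edge a (f i) := fun i hi => (hf i hi).1
  have hfq : ∀ i, i ≤ n → qmk N (f i) = c i := fun i hi => (hf i hi).2.1
  have hft : ∀ i, i < n → X.tri a (f i) (f (i + 1)) := fun i hi => (hf i (by omega)).2.2 hi
  rcases Classical.em (∀ g : N, g • a = a → g • f 0 = f 0 → g • f 1 = f 1) with hgood | hgood
  · refine ⟨a, f 0, f 1, hft 0 (by omega), ?_, ?_, hgood⟩
    · rw [hfq 0 (by omega), hfq 1 (by omega)]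
      exact hc2 0 (by omega)
    · intro z hz
      rw [hfq 0 (by omega)] at hz
      rw [hfq 1 (by omega)]
      exact leaf0 z hz
  push Not at hgood
  obtain ⟨z, hza, hz0, hz1⟩ := hgood
  have hzne : z ≠ 1 := by
    rintro rfl
    exact hz1 (one_smul _ _)
  refine ⟨a, f n, f (n - 1), ?_, ?_, ?_, ?_⟩
  · have e : n = (n - 1) + 1 := by omega
    have h := tswap (hft (n - 1) (by omega))
    rw [← e] at h
    exact h
  · have e : n = (n - 1) + 1 := by omega
    rw [hfq n le_rfl, hfq (n - 1) (by omega)]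
    have h := hT5 _ _ _ (hc2 (n - 1) (by omega))
    rw [← e] at h
    exact h
  · intro y hy
    rw [hfq n le_rfl] at hy
    rw [hfq (n - 1) (by omega)]
    exact leafn y hy
  by_contra hbad
  push Not at hbad
  obtain ⟨z', h1, h2, h3⟩ := hbad
  have hmarkn : ∀ g : N, g • a = a ↔ g • f n = f n := by
    rcases hr.mark a (f n) (hfe n le_rfl) with h | h
    · exfalso
      have := h z' h1 h2
      rw [this] at h3
      exact h3 (one_smul _ _)
    · exact h
  have hzn : z • f n = f n := (hmarkn z).1 hza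
  -- the minimal fixed vertex
  have hex : ∃ j, 1 ≤ j ∧ j ≤ n ∧ z • f j = f j := ⟨n, hn1, le_rfl, hzn⟩
  obtain ⟨hj1, hjn, hjz⟩ := Nat.find_spec hex
  set j := Nat.find hex with hjdef
  have hjmin : ∀ m, 1 ≤ m → m < j → z • f m ≠ f m := by
    intro m h1 h2 h3
    exact Nat.find_min hex h2 ⟨h1, by omega, h3⟩
  have hj2 : 2 ≤ j := by
    rcases Nat.lt_or_ge j 2 with h | h
    · have : j = 1 := by omega
      rw [this] at hjz
      exact absurd hjz hz1
    · exact h
  set b : ℕ → V := fun i => if i ≤ j then f i else z • f (2 * j - i) with hb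
  have b1 : ∀ i, i ≤ j → b i = f i := fun i hi => by simp [hb, hi]
  have b2 : ∀ i, j ≤ i → b i = z • f (2 * j - i) := by
    intro i hi
    rcases Nat.lt_or_ge j i with h | h
    · simp only [hb]
      rw [if_neg (by omega)]
    · have e : i = j := by omega
      rw [e, b1 j le_rfl]
      have e2 : 2 * j - j = j := by omega
      rw [e2, hjz]
  have k1 := hn.link a (2 * j) b (by omega) ?_ ?_ ?_
  · have e : 2 * j = j + j := by ring
    rw [e, Finset.sum_range_add] at k1
    have hcor : ∀ i, i < j → corner len a (f i) (f (i + 1)) =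
        corner (quoLen N X len) (qmk N a) (c i) (c (i + 1)) := by
      intro i hi
      unfold corner
      rw [← hfq i (by omega), ← hfq (i + 1) (by omega), quoLen_eq' hτ ha _ _ (hfe i (by omega)),
        quoLen_eq' hτ ha _ _ (hfe (i + 1) (by omega)),
        quoLen_eq' hτ ha _ _ (X.tri_edge _ _ _ (X.tri_rot _ _ _ (hft i (by omega))))]
    have k2 : ∑ i ∈ Finset.range j, corner len a (b i) (b (i + 1)) =
        ∑ i ∈ Finset.range j, corner len a (f i) (f (i + 1)) := by
      refine Finset.sum_congr rfl (fun i hi => ?_)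
      rw [Finset.mem_range] at hi
      rw [b1 i (by omega), b1 (i + 1) (by omega)]
    have k3 : ∑ i ∈ Finset.range j, corner len a (b (j + i)) (b (j + i + 1)) =
        ∑ i ∈ Finset.range j, corner len a (f i) (f (i + 1)) := by
      rw [← Finset.sum_range_reflect]
      refine Finset.sum_congr rfl (fun i hi => ?_)
      rw [Finset.mem_range] at hi
      rw [b2 _ (by omega), b2 _ (by omega)]
      have e1 : 2 * j - (j + (j - 1 - i)) = i + 1 := by omega
      have e2 : 2 * j - (j + (j - 1 - i) + 1) = i := by omega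
      rw [e1, e2, corner_symm hn.symm]
      unfold corner
      have g1 : len a (z • f i) = len a (f i) := by
        have := ha.len z _ _ (hfe i (by omega))
        rwa [hza] at this
      have g2 : len a (z • f (i + 1)) = len a (f (i + 1)) := by
        have := ha.len z _ _ (hfe (i + 1) (by omega))
        rwa [hza] at this
      have g3 : len (z • f i) (z • f (i + 1)) = len (f i) (f (i + 1)) :=
        ha.len z _ _ (X.tri_edge _ _ _ (X.tri_rot _ _ _ (hft i (by omega))))
      rw [g1, g2, g3]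
    have k4 : ∑ i ∈ Finset.range j, corner len a (f i) (f (i + 1)) < Real.pi := by
      have := hp j c (fun i i' hi hi' h => hc1 i i' (by omega) (by omega) h)
        (fun i hi => hc2 i (by omega))
      rw [Finset.sum_congr rfl (fun i hi => hcor i (Finset.mem_range.1 hi))]
      exact this
    rw [k2, k3] at k1
    linarith
  · rw [b1 0 (by omega), b2 (2 * j) (by omega)]
    have e : 2 * j - 2 * j = 0 := by omega
    rw [e, hz0]
  · -- injectivity
    have hqb : ∀ i, i < 2 * j → qmk N (b i) = c (if i ≤ j then i else 2 * j - i) := by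
      intro i hi
      split_ifs with h
      · rw [b1 i h, hfq i (by omega)]
      · rw [b2 i (by omega), qmk_smul, hfq _ (by omega)]
    intro i i' hi hi' h
    have h4 : c (if i ≤ j then i else 2 * j - i) = c (if i' ≤ j then i' else 2 * j - i') := by
      rw [← hqb i hi, ← hqb i' hi', h]
    have h5 := hc1 _ _ (by split_ifs <;> omega) (by split_ifs <;> omega) h4
    split_ifs at h5 with h6 h7 h7
    · exact h5
    · exfalso
      rw [b1 i h6, b2 i' (by omega), ← h5] at h
      exact hjmin i (by omega) (by omega) h.symm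
    · exfalso
      rw [b2 i (by omega), b1 i' h7, h5] at h
      exact hjmin i' (by omega) (by omega) h
    · omega
  · -- triangles
    intro i hi
    rcases Nat.lt_or_ge i j with h | h
    · rw [b1 i (by omega), b1 (i + 1) (by omega)]
      exact hft i (by omega)
    · rw [b2 i h, b2 (i + 1) (by omega)]
      have e : 2 * j - i = (2 * j - (i + 1)) + 1 := by omega
      have h6 := ha.tri z _ _ _ (tswap (hft (2 * j - (i + 1)) (by omega)))
      rw [hza, ← e] at h6
      exact h6

/-- **Module A5b** -/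
theorem good_leaf {N V K : Type} [Group N] [MulAction N V] (X : Complex2 V) (len : V → V → ℝ)
    (τ : V → K) (hn : NPC X len) (hτ : Typed X τ) (ha : Acts N X len τ) (hr : Rot N X len)
    (hg : Geo (quo N X) (quoLen N X len)) (T : Quo N V → Quo N V → Quo N V → Prop)
    (hT : ∀ a b c, T a b c → (quo N X).tri a b c) (hT1 : ∀ a b c, T a b c → T b c a)
    (hT2 : ∀ a b c, T a b c → T b a c) (hT3 : {a | ∃ b c, T a b c}.Finite)
    (hT4 : ∃ a b c, T a b c) :
    ∃ a b c : V, X.tri a b c ∧ T (qmk N a) (qmk N b) (qmk N c) ∧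
      (∀ z, T (qmk N a) (qmk N b) z → z = qmk N c) ∧
      ∀ g : N, g • a = a → g • b = b → g • c = c :=
  good_leaf_aux X len τ hn hτ ha hr (Pool.Agent.helper26.FJ3.quo_npc X len τ hn hτ ha hr) hg T hT
    hT1 hT2 hT3 hT4

end Pool.Agent.helper20.FJ3
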